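import Pool.Agent.Shared.BorelDet.Tree

/-!
Inverse limits of coverings.
-/

namespace Pool.Agent.Shared.BorelDet.GT

open Function

variable {k : ℕ} {T : ℕ → GT} (C : ∀ i, Cov (k + i) (T (i + 1)) (T i))

/-- Coherent families of nodes. -/
@[ext] structure LimN : Type where
  f : ∀ i, (T i).N
  prop : ∀ i, (C i).π (f (i + 1)) = f i

variable {C}

theorem LimN.len (x : LimN C) (i : ℕ) : (T i).len (x.1 i) = (T 0).len (x.1 0) := by
  induction i with
  | zero => rfl
  | succ i ih => rw [← ih, ← x.2 i, (C i).len_π]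

theorem LimN.down {x y : LimN C} {j : ℕ} (h : x.1 j = y.1 j) : ∀ i ≤ j, x.1 i = y.1 i := by
  intro i hi
  induction hi using Nat.decreasingInduction with
  | self => exact h
  | of_succ i _ ih => rw [← x.2 i, ← y.2 i, ih]

theorem LimN.inj {x y : LimN C} {j : ℕ} (hx : (T 0).len (x.1 0) ≤ k + j) (h : x.1 j = y.1 j) :
    x = y := by
  refine LimN.ext (funext fun i => ?_)
  rcases le_total i j with hi | hi
  · exact LimN.down h i hi
  · induction hi with
    | refl => exact h
    | @step i hi ih =>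
      have hi : j ≤ i := hi
      exact (C i).inj _ _ (by rw [x.len]; omega) (by rw [x.2, y.2, ih])

theorem LimN.fill (j : ℕ) : ∀ u : ∀ i, (T i).N, (∀ i, j ≤ i → (C i).π (u (i + 1)) = u i) →
    ∃ x : LimN C, ∀ i, j ≤ i → x.1 i = u i := by
  induction j with
  | zero => exact fun u hu => ⟨⟨u, fun i => hu i (Nat.zero_le _)⟩, fun _ _ => rfl⟩
  | succ j ih =>
    intro u hu
    obtain ⟨x, hx⟩ := ih (update u j ((C j).π (u (j + 1)))) fun i hi => by
      rcases hi.eq_or_lt with rfl | hi
      · rw [update_self, update_of_ne (by omega)]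
      · rw [update_of_ne (by omega), update_of_ne (by omega), hu i hi]
    exact ⟨x, fun i hi => by rw [hx i (by omega), update_of_ne (by omega)]⟩

theorem LimN.surj (j : ℕ) (y : (T j).N) (hy : (T j).len y ≤ k + j) : ∃ x : LimN C, x.1 j = y := by
  have : ∀ i (z : (T i).N), ∃ z', (T i).len z ≤ k + i → (C i).π z' = z := fun i z => by
    by_cases h : (T i).len z ≤ k + i
    · obtain ⟨z', hz⟩ := (C i).surj z h
      exact ⟨z', fun _ => hz⟩
    · exact ⟨(T (i + 1)).root, fun h' => absurd h' h⟩
  choose up hup using this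
  let f : ∀ i, (T i).N := update (fun i => (T i).root) j y
  let u : ∀ i, (T i).N := fun i =>
    Nat.rec (motive := fun i => (T i).N) (f 0)
      (fun i z => if i + 1 ≤ j then f (i + 1) else up i z) i
  have hu : ∀ i, u (i + 1) = if i + 1 ≤ j then f (i + 1) else up i (u i) := fun _ => rfl
  have huj : u j = y := by
    cases j with
    | zero => exact update_self ..
    | succ j => rw [hu, if_pos le_rfl]; exact update_self ..
  have key : ∀ i, j ≤ i → (T i).len (u i) ≤ k + j := by
    intro i hi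
    induction hi with
    | refl => rwa [huj]
    | @step i hi ih =>
      have hi : j ≤ i := hi
      rw [hu, if_neg (by omega), ← (C i).len_π, hup i _ (by omega)]
      exact ih
  obtain ⟨x, hx⟩ := LimN.fill (C := C) j u fun i hi => by
    rw [hu, if_neg (by omega), hup i _ (by have := key i hi; omega)]
  exact ⟨x, by rw [hx j le_rfl, huj]⟩

variable (C) in
/-- The inverse limit. -/
def lim : GT where
  N := LimN C
  len x := (T 0).len (x.1 0)
  cut m x := ⟨fun i => (T i).cut m (x.1 i), fun i => by rw [(C i).cut_π, x.2]⟩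
  root := ⟨fun i => (T i).root, fun i => by
    rw [← (T (i + 1)).cut_zero (T (i + 1)).root, (C i).cut_π, (T i).cut_zero]⟩
  len_root := (T 0).len_root
  len_cut m x := (T 0).len_cut m _
  cut_cut m n x := LimN.ext (funext fun i => (T i).cut_cut m n _)
  cut_len m x h := LimN.ext (funext fun i => (T i).cut_len m _ (by rwa [x.len]))
  cut_zero x := LimN.ext (funext fun i => (T i).cut_zero _)
  pruned x := by
    set n := (T 0).len (x.1 0) with hn
    have hc := ch_child (x.1 (n + 1))
    obtain ⟨y, hy⟩ := LimN.surj (C := C) (n + 1) _ (by rw [hc.1, x.len]; omega)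
    refine ⟨y, by rw [← y.len (n + 1), hy, hc.1, x.len], LimN.inj (j := n + 1) ?_ ?_⟩
    · exact ((T 0).len_cut _ _).trans_le (by omega)
    · have := hc.2
      rw [x.len, ← hy] at this
      exact this

/-- The projection of a branch of the limit. -/
def limBr (i : ℕ) (b : (lim C).Br) : (T i).Br :=
  ⟨fun n => (b.1 n).1 i, fun n => ⟨by rw [LimN.len]; exact b.len n,
    congrArg (fun x : LimN C => x.1 i) (b.2 n).2⟩⟩

theorem limBr_succ (i : ℕ) (b : (lim C).Br) : (C i).br (limBr (i + 1) b) = limBr i b :=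
  Br.ext (funext fun n => (b.1 n).2 i)

theorem limBr_op (i : ℕ) {O : Set (T i).Br} (hO : Op O) : Op (limBr (C := C) i ⁻¹' O) := by
  intro b hb
  obtain ⟨n, hn⟩ := hO _ hb
  exact ⟨n, fun b' h => hn _ (congrArg (fun x : LimN C => x.1 i) h)⟩

theorem lim_child {x y : LimN C} (h : (lim C).Child x y) (j : ℕ) :
    (T j).Child (x.1 j) (y.1 j) :=
  ⟨by rw [x.len, y.len]; exact h.1, by
    rw [x.len]; exact congrArg (fun x : LimN C => x.1 j) h.2⟩

open Classical in
/-- A strategy in the limit, read on the low levels of the `j`-th tree. -/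
noncomputable def psi (σ : (lim C).Strat) (j : ℕ) : (T j).Strat :=
  ⟨fun y => if h : ∃ x : LimN C, x.1 j = y then (σ.1 h.choose).1 j else (T j).ch y, fun y => by
    split_ifs with h
    · have h1 := lim_child (σ.2 h.choose) j
      rwa [h.choose_spec] at h1
    · exact ch_child y⟩

theorem psi_apply (σ : (lim C).Strat) (j : ℕ) (x : LimN C) (hx : (T 0).len (x.1 0) ≤ k + j) :
    (psi σ j).1 (x.1 j) = (σ.1 x).1 j := by
  have h : ∃ x' : LimN C, x'.1 j = x.1 j := ⟨x, rfl⟩
  have : x = h.choose := LimN.inj hx h.choose_spec.symm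
  simp only [psi, dif_pos h]
  exact congrArg (fun x => (σ.1 x).1 j) this.symm

variable (C) in
/-- Pushing a family of strategies down one step. -/
def Phi (ε : Bool) (f : ∀ j, (T j).Strat) : ∀ j, (T j).Strat := fun j => (C j).φ ε (f (j + 1))

theorem Phi_loc (ε : Bool) (n d : ℕ) (f g : ∀ j, (T j).Strat) : ∀ i,
    (∀ y, (T (i + d)).len y ≤ n → (f (i + d)).1 y = (g (i + d)).1 y) →
    ∀ y, (T i).len y ≤ n → ((Phi C ε)^[d] f i).1 y = ((Phi C ε)^[d] g i).1 y := by
  induction d generalizing f g with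
  | zero => exact fun i h => h
  | succ d ih =>
    intro i h
    rw [iterate_succ_apply, iterate_succ_apply]
    exact ih _ _ i ((C (i + d)).loc ε _ _ n h)

theorem Phi_psi (ε : Bool) (σ : (lim C).Strat) (j : ℕ) (y : (T j).N) (hy : (T j).len y < k + j) :
    (Phi C ε (psi σ) j).1 y = (psi σ j).1 y := by
  obtain ⟨x, rfl⟩ := LimN.surj (C := C) j y hy.le
  rw [x.len] at hy
  rw [psi_apply σ j x hy.le, Phi, ← x.2 j, (C j).low ε _ _ (by rwa [x.len]),
    psi_apply σ (j + 1) x (by omega), (σ.1 x).2 j]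

theorem Phi_stab (ε : Bool) (σ : (lim C).Strat) (i : ℕ) (y : (T i).N) {d e : ℕ}
    (hy : (T i).len y < k + i + d) (h : d ≤ e) :
    ((Phi C ε)^[e] (psi σ) i).1 y = ((Phi C ε)^[d] (psi σ) i).1 y := by
  induction h with
  | refl => rfl
  | @step e h ih =>
    have h : d ≤ e := h
    rw [← ih, iterate_succ_apply]
    exact Phi_loc ε _ e _ _ i (fun z hz => Phi_psi ε σ _ z (by omega)) y le_rfl

/-- The strategy induced on the `i`-th tree. -/
noncomputable def sig (ε : Bool) (σ : (lim C).Strat) (i : ℕ) : (T i).Strat :=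
  ⟨fun y => ((Phi C ε)^[(T i).len y + 1] (psi σ) i).1 y, fun y => Strat.child _ y⟩

theorem sig_low (ε : Bool) (σ : (lim C).Strat) (i : ℕ) (y : (T i).N) (hy : (T i).len y < k + i) :
    (sig ε σ i).1 y = (psi σ i).1 y :=
  Phi_stab ε σ i y (d := 0) hy (Nat.zero_le _)

theorem sig_succ (ε : Bool) (σ : (lim C).Strat) (i : ℕ) :
    (C i).φ ε (sig ε σ (i + 1)) = sig ε σ i := by
  refine Strat.ext (funext fun y => ?_)
  set n := (T i).len y with hn
  rw [(C i).loc ε (sig ε σ (i + 1)) ((Phi C ε)^[n + 1] (psi σ) (i + 1)) n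
    (fun z hz => (Phi_stab ε σ (i + 1) z (by omega) (by omega)).symm) y le_rfl]
  have : (C i).φ ε ((Phi C ε)^[n + 1] (psi σ) (i + 1)) = (Phi C ε)^[n + 2] (psi σ) i := by
    rw [iterate_succ_apply' (Phi C ε) (n + 1)]
    rfl
  rw [this]
  exact Phi_stab ε σ i y (by omega) (by omega)

/-- The limit covers the first tree. -/
noncomputable def limCov : Cov k (lim C) (T 0) where
  π x := x.1 0
  len_π _ := rfl
  cut_π _ _ := rfl
  inj _ _ hx h := LimN.inj (j := 0) hx h
  surj y hy := LimN.surj 0 y hy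
  φ ε σ := sig ε σ 0
  loc ε σ τ n h y hy := by
    refine Phi_loc ε n _ _ _ 0 (fun z hz => ?_) y hy
    simp only [psi]
    split_ifs with h'
    · rw [h _ (by
        have := h'.choose.len (0 + ((T 0).len y + 1))
        rw [h'.choose_spec] at this
        exact this.symm.trans_le hz)]
    · rfl
  low ε σ x hx := by
    rw [sig_low ε σ 0 _ hx, psi_apply σ 0 x (le_of_lt hx)]
  lift ε σ b hb := by
    have step : ∀ i (c : {c : (T i).Br // Cons ε (sig ε σ i) c}),
        ∃ c' : {c : (T (i + 1)).Br // Cons ε (sig ε σ (i + 1)) c},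
          ∀ n, (C i).π (c'.1.1 n) = c.1.1 n := fun i c => by
      obtain ⟨b', h1, h2⟩ := (C i).lift ε (sig ε σ (i + 1)) c.1 (by rw [sig_succ]; exact c.2)
      exact ⟨⟨b', h1⟩, h2⟩
    choose s hs using step
    let B : ∀ i, {c : (T i).Br // Cons ε (sig ε σ i) c} := fun i =>
      Nat.rec (motive := fun i => {c : (T i).Br // Cons ε (sig ε σ i) c}) ⟨b, hb⟩ s i
    let x : ℕ → LimN C := fun n => ⟨fun i => (B i).1.1 n, fun i => hs i (B i) n⟩
    refine ⟨⟨x, fun n => ⟨(B 0).1.len n, LimN.ext (funext fun i => ((B i).1.2 n).2)⟩⟩,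
      fun n hn => ?_, fun n => rfl⟩
    have hl : ∀ m, (T 0).len ((x m).1 0) = m := fun m => (B 0).1.len m
    refine LimN.inj (j := n + 1) ((hl _).trans_le (by omega)) ?_
    have h1 := (B (n + 1)).2 n hn
    rw [sig_low ε σ _ _ (by rw [Br.len]; omega)] at h1
    exact h1.trans (psi_apply σ (n + 1) (x n) ((hl _).trans_le (by omega)))

theorem limCov_br (b : (lim C).Br) : (limCov (C := C)).br b = limBr 0 b := rfl

end Pool.Agent.Shared.BorelDet.GT
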