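import Pool.Agent.Shared.BorelDet.Cover
import Pool.Agent.Shared.BorelDet.Limit

/-!
Martin's theorem: Borel games are determined.
-/

namespace Pool.Agent.Shared.BorelDet

namespace GT

variable {Z : Type*} [TopologicalSpace Z]

/-- A tree with a continuous map on its branches. -/
structure Stage (Z : Type*) [TopologicalSpace Z] where
  T : GT
  φ : T.Br → Z
  cont : ∀ U, IsOpen U → Op (φ ⁻¹' U)

/-- Pulling a stage back along a covering. -/
def Stage.pull (s : Stage Z) {k : ℕ} {T' : GT} (C : Cov k T' s.T) : Stage Z :=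
  ⟨T', fun b => s.φ (C.br b), fun U hU => C.op (s.cont U hU)⟩

theorem unravel [MeasurableSpace Z] [BorelSpace Z] {S : Set Z} (hS : MeasurableSet S) :
    ∀ (s : Stage Z) (k : ℕ), ∃ (T' : GT) (C : Cov k T' s.T),
      Op (C.br ⁻¹' (s.φ ⁻¹' S)) ∧ Op (C.br ⁻¹' (s.φ ⁻¹' S))ᶜ := by
  induction S, hS using MeasurableSet.induction_on_open with
  | isOpen U hU => exact fun s k => unravel_open (s.cont U hU) k
  | compl S _ ih =>
    intro s k
    obtain ⟨T', C, h1, h2⟩ := ih s k
    exact ⟨T', C, h2, by rwa [Set.preimage_compl, Set.preimage_compl, compl_compl]⟩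
  | iUnion S _ _ ih =>
    intro s k
    choose T' C h1 _ using ih
    let st : ℕ → Stage Z := fun i =>
      Nat.rec (motive := fun _ => Stage Z) s (fun i t => t.pull (C i t (k + i))) i
    let TT : ℕ → GT := fun i => (st i).T
    let D : ∀ i, Cov (k + i) (TT (i + 1)) (TT i) := fun i => C i (st i) (k + i)
    have hφ : ∀ i (b : (lim D).Br),
        (st i).φ (limBr (T := TT) (C := D) i b) = (st 0).φ (limBr (T := TT) (C := D) 0 b) := by
      intro i b
      induction i with
      | zero => rfl
      | succ i ih => rw [← ih, ← limBr_succ (T := TT) i b]; rfl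
    have hop : Op ((limCov (T := TT) (C := D)).br ⁻¹' (s.φ ⁻¹' ⋃ i, S i)) := by
      intro b hb
      obtain ⟨i, hi⟩ := Set.mem_iUnion.mp hb
      replace hi : (st (i + 1)).φ (limBr (T := TT) (C := D) (i + 1) b) ∈ S i := by
        rw [hφ (i + 1) b]; exact hi
      obtain ⟨n, hn⟩ := limBr_op (T := TT) (C := D) (i + 1) (h1 i (st i) (k + i)) b hi
      refine ⟨n, fun b' h => Set.mem_iUnion.mpr ⟨i, ?_⟩⟩
      have : (st (i + 1)).φ (limBr (T := TT) (C := D) (i + 1) b') ∈ S i := hn b' h
      rwa [hφ (i + 1) b'] at this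
    obtain ⟨T'', C', h3, h4⟩ := unravel_open hop k
    exact ⟨T'', C'.comp (limCov (T := TT) (C := D)), h3, h4⟩

/-- Borel determinacy on a pruned tree. -/
theorem determined [MeasurableSpace Z] [BorelSpace Z] {S : Set Z} (hS : MeasurableSet S)
    (s : Stage Z) : (∃ σ, ∀ b, Cons false σ b → s.φ b ∈ S) ∨
      ∃ τ, ∀ b, Cons true τ b → s.φ b ∉ S := by
  obtain ⟨T', C, h, -⟩ := unravel hS s 0
  rcases open_determined h false with ⟨σ, hσ⟩ | ⟨τ, hτ⟩
  · exact Or.inl ⟨_, C.wins (S := s.φ ⁻¹' S) hσ⟩
  · exact Or.inr ⟨_, C.wins (S := (s.φ ⁻¹' S)ᶜ) hτ⟩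

/-- The tree of all finite sequences. -/
def full (M : Type) [Inhabited M] : GT where
  N := List M
  len := List.length
  cut := List.take
  root := []
  len_root := rfl
  len_cut _ _ := List.length_take
  cut_cut _ _ _ := List.take_take
  cut_len _ _ h := List.take_of_length_le h
  cut_zero _ := rfl
  pruned x := ⟨x ++ [default], by simp, by simp⟩

variable {M : Type} [Inhabited M]

/-- The sequence of moves along a branch. -/
def play (b : (full M).Br) (n : ℕ) : M := List.getD (b.1 (n + 1)) n default

theorem play_eq {b b' : (full M).Br} {n m : ℕ} (h : b'.1 n = b.1 n) (hm : m < n) :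
    play b' m = play b m := by
  rw [play, play, ← b.cut (Nat.succ_le_of_lt hm), ← b'.cut (Nat.succ_le_of_lt hm), h]

/-- Playing `σ` against the moves `c`. -/
def run (ε : Bool) (σ : (full M).Strat) (c : ℕ → M) : ℕ → List M
  | 0 => []
  | n + 1 => if n.bodd = ε then σ.1 (run ε σ c n) else run ε σ c n ++ [c n]

theorem run_child (ε : Bool) (σ : (full M).Strat) (c : ℕ → M) (n : ℕ) :
    (full M).Child (run ε σ c n) (run ε σ c (n + 1)) := by
  rw [run]
  split_ifs
  · exact σ.2 _
  · exact ⟨by simp [full], by simp [full]⟩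

theorem run_len (ε : Bool) (σ : (full M).Strat) (c : ℕ → M) (n : ℕ) :
    (run ε σ c n).length = n := by
  induction n with
  | zero => rfl
  | succ n ih => exact (run_child ε σ c n).1.trans (congrArg (· + 1) ih)

/-- The branch obtained by playing `σ` against `c`. -/
def runBr (ε : Bool) (σ : (full M).Strat) (c : ℕ → M) : (full M).Br :=
  ⟨run ε σ c, fun n => ⟨run_len ε σ c n, by
    have := (run_child ε σ c n).2
    rwa [show (full M).len (run ε σ c n) = n from run_len ε σ c n] at this⟩⟩

theorem runBr_cons (ε : Bool) (σ : (full M).Strat) (c : ℕ → M) : Cons ε σ (runBr ε σ c) :=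
  fun _ hn => if_pos hn

theorem play_run (ε : Bool) (σ : (full M).Strat) (c : ℕ → M) {n : ℕ} (hn : n.bodd ≠ ε) :
    play (runBr ε σ c) n = c n := by
  simp [play, runBr, run, hn, run_len]

theorem run_congr (ε : Bool) (σ : (full M).Strat) {c c' : ℕ → M} (n : ℕ)
    (h : ∀ m < n, m.bodd ≠ ε → c m = c' m) : run ε σ c n = run ε σ c' n := by
  induction n with
  | zero => rfl
  | succ n ih =>
    rw [run, run, ih fun m hm => h m (by omega)]
    split_ifs with hn
    · rfl
    · rw [h n (by omega) hn]

end GT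

open _root_.Pool.Agent.Shared.BorelDet.GT

/-- Borel determinacy.  The first player plays `a 0, a 1, …`, the second `b 0, b 1, …`, in the order
`a 0, b 0, a 1, b 1, …`; the first player wins if `(a, b) ∈ W`. -/
theorem borel_determinacy {M : Type} [Inhabited M] [TopologicalSpace M] [MeasurableSpace M]
    [BorelSpace M] [SecondCountableTopology M] {W : Set ((ℕ → M) × (ℕ → M))}
    (hW : MeasurableSet W) :
    (∃ σ : (ℕ → M) → ℕ → M, (∀ b b' r, (∀ s < r, b s = b' s) → σ b r = σ b' r) ∧
      ∀ b, (σ b, b) ∈ W) ∨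
    ∃ τ : (ℕ → M) → ℕ → M, (∀ a a' r, (∀ s ≤ r, a s = a' s) → τ a r = τ a' r) ∧
      ∀ a, (a, τ a) ∉ W := by
  let φ : (full M).Br → (ℕ → M) × (ℕ → M) := fun b =>
    (fun r => play b (2 * r), fun r => play b (2 * r + 1))
  have hφ : ∀ U, IsOpen U → Op (φ ⁻¹' U) := by
    intro U hU b hb
    by_contra hcon
    push Not at hcon
    choose c hc hc' using hcon
    have hp : ∀ m, Filter.Tendsto (fun n => play (c n) m) Filter.atTop (nhds (play b m)) :=
      fun m => tendsto_const_nhds.congr' (Filter.eventually_atTop.mpr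
        ⟨m + 1, fun n hn => (play_eq (hc n) hn).symm⟩)
    have : Filter.Tendsto (fun n => φ (c n)) Filter.atTop (nhds (φ b)) :=
      (tendsto_pi_nhds.mpr fun r => hp _).prodMk_nhds (tendsto_pi_nhds.mpr fun r => hp _)
    obtain ⟨n, hn⟩ := (this.eventually (hU.mem_nhds hb)).exists
    exact hc' n hn
  have hodd : ∀ m : ℕ, m.bodd = true ↔ m % 2 = 1 := fun m => by
    rw [Nat.mod_two_of_bodd]; cases m.bodd <;> simp
  rcases determined hW ⟨full M, φ, hφ⟩ with ⟨σ, hσ⟩ | ⟨τ, hτ⟩
  · refine Or.inl ⟨fun b r => play (runBr false σ fun m => b (m / 2)) (2 * r),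
      fun b b' r h => ?_, fun b => ?_⟩
    · refine congrArg (fun l => List.getD l (2 * r) default) (run_congr false σ _ fun m hm hm' => ?_)
      have := (hodd m).mp (by simpa using hm')
      exact h _ (by omega)
    · have := hσ _ (runBr_cons false σ fun m => b (m / 2))
      have e : (fun r => play (runBr false σ fun m => b (m / 2)) (2 * r + 1)) = b := by
        funext r
        rw [play_run _ _ _ (by simp)]
        congr 1
        omega
      simp only [φ, e] at this
      exact this
  · refine Or.inr ⟨fun a r => play (runBr true τ fun m => a (m / 2)) (2 * r + 1),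
      fun a a' r h => ?_, fun a => ?_⟩
    · exact congrArg (fun l => List.getD l (2 * r + 1) default)
        (run_congr true τ _ fun m hm _ => h _ (by omega))
    · have := hτ _ (runBr_cons true τ fun m => a (m / 2))
      have e : (fun r => play (runBr true τ fun m => a (m / 2)) (2 * r)) = a := by
        funext r
        rw [play_run _ _ _ (by simp)]
        congr 1
        omega
      simp only [φ, e] at this
      exact this

end Pool.Agent.Shared.BorelDet
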