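import Pool.Agent.Shared.BorelDet.Unravel

/-!
Unravelling an open set: the auxiliary tree covers the given one.
-/

namespace Pool.Agent.Shared.BorelDet.GT

open Classical

variable {T : GT} {Z : Set T.N} {k : ℕ} {hZ : ∀ x ∈ Z, k + 2 ≤ T.len x}

/-- Copy the move of the auxiliary strategy. -/
noncomputable def follow (σ : (unr hZ).Strat) (x : T.N) (K : Set T.N) (μ : Option T.N) : T.N :=
  if h : Valid Z k x K μ then UN.x (σ.1 ⟨x, K, μ, h⟩) else T.ch x

theorem follow_child (σ : (unr hZ).Strat) (x : T.N) (K : Set T.N) (μ : Option T.N) :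
    T.Child x (follow σ x K μ) := by
  unfold follow
  split_ifs with h
  · exact (unr_child (σ.2 ⟨x, K, μ, h⟩)).1
  · exact ch_child x

theorem follow_eq (σ : (unr hZ).Strat) (p : UN Z k) : follow σ p.x p.K p.μ = UN.x (σ.1 p) :=
  dif_pos p.valid

theorem follow_loc {σ τ : (unr hZ).Strat} {n : ℕ}
    (h : ∀ p : UN Z k, T.len p.x ≤ n → σ.1 p = τ.1 p) {x : T.N} (hx : T.len x ≤ n) (K : Set T.N)
    (μ : Option T.N) : follow σ x K μ = follow τ x K μ := by
  unfold follow
  split_ifs with h'
  · rw [h _ hx]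
  · rfl

/-- A strategy reaching `A` from `y`, if there is one. -/
noncomputable def fs (η : Bool) (A : Set T.N) (y : T.N) : T.Strat :=
  if h : ∃ σ, Reach η A y σ then h.choose else ⟨T.ch, ch_child⟩

theorem fs_reach {η : Bool} {A : Set T.N} {y : T.N} (h : Force T Z η A y) :
    Reach η A y (fs η A y) := by
  rw [fs, dif_pos h.reach]
  exact h.reach.choose_spec

/-- The set announced at level `k`, as seen by player `η`. -/
noncomputable def Kf (η : Bool) (σ : (unr hZ).Strat) (q : T.N) : Set T.N :=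
  if η = k.bodd then
    UN.K (σ.1 ⟨T.cut k q, ∅, none, valid_low (by rw [T.len_cut]; omega)⟩)
  else Z \ {r | ∃ K', ∃ h : Valid Z k q K' none, UN.μ (σ.1 ⟨q, K', none, h⟩) = some r}

/-- The set announced at level `k` in the play in which `r` is picked. -/
noncomputable def chal (η : Bool) (σ : (unr hZ).Strat) (q r : T.N) : Set T.N :=
  if η = k.bodd then Kf η σ q
  else epsilon fun K' => ∃ h : Valid Z k q K' none, UN.μ (σ.1 ⟨q, K', none, h⟩) = some r

variable (Z k) in
/-- The move above level `k`. -/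
noncomputable def high (η : Bool) (x : T.N) (K : Set T.N) (fo : Set T.N → Option T.N → T.N)
    (c : T.N → Set T.N) : T.N :=
  if h : ∃ n, T.cut n x ∈ tgt Z k η K then
    fo (c (T.cut (Nat.find h) x)) (some (T.cut (Nat.find h) x))
  else if h : ∃ n, k + 1 ≤ n ∧ Fo Z k η K (T.cut n x) then
    (fs η (tgt Z k η K) (T.cut (Nat.find h) x)).1 x
  else fo K none

/-- The strategy induced by an auxiliary strategy. -/
noncomputable def build (η : Bool) (σ : (unr hZ).Strat) : T.Strat :=
  ⟨fun x => if T.len x ≤ k then follow σ x ∅ none else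
      high Z k η x (Kf η σ (T.cut (k + 1) x)) (follow σ x) (chal η σ (T.cut (k + 1) x)),
    fun x => by
      unfold high
      split_ifs
      · exact follow_child ..
      · exact follow_child ..
      · exact Strat.child _ x
      · exact follow_child ..⟩

theorem build_loc (η : Bool) (σ τ : (unr hZ).Strat) (n : ℕ)
    (h : ∀ p : UN Z k, T.len p.x ≤ n → σ.1 p = τ.1 p) (x : T.N) (hx : T.len x ≤ n) :
    (build η σ).1 x = (build η τ).1 x := by
  simp only [build]
  split_ifs with hk
  · exact follow_loc h hx _ _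
  have hq : T.len (T.cut (k + 1) x) ≤ n := by rw [T.len_cut]; omega
  have h0 : ∀ K' (h' : Valid Z k (T.cut (k + 1) x) K' none),
      σ.1 ⟨_, K', none, h'⟩ = τ.1 ⟨_, K', none, h'⟩ := fun K' h' => h _ hq
  have h1 : Kf η σ (T.cut (k + 1) x) = Kf η τ (T.cut (k + 1) x) := by
    unfold Kf
    split_ifs
    · rw [h _ (by dsimp only; rw [T.len_cut]; omega)]
    · simp only [h0]
  have h2 : chal η σ (T.cut (k + 1) x) = chal η τ (T.cut (k + 1) x) := by
    funext r
    unfold chal
    split_ifs
    · exact h1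
    · simp only [h0]
  have h3 : follow σ x = follow τ x := by
    funext K μ
    exact follow_loc h hx K μ
  rw [h1, h2, h3]

theorem find_cut (b : T.Br) {P : T.N → ℕ → Prop} {n : ℕ} [DecidablePred fun m => P (b.1 m) m]
    [DecidablePred fun m => P (T.cut m (b.1 n)) m] (h : ∃ m, P (b.1 m) m)
    (h' : ∃ m, P (T.cut m (b.1 n)) m) (hn : Nat.find h ≤ n) :
    T.cut (Nat.find h') (b.1 n) = b.1 (Nat.find h) := by
  have : Nat.find h' = Nat.find h := by
    rw [Nat.find_eq_iff]
    refine ⟨by rw [b.cut hn]; exact Nat.find_spec h, fun m hm => ?_⟩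
    rw [b.cut (by omega)]
    exact Nat.find_min h hm
  rw [this, b.cut hn]

/-- Lifting a branch with given announcement and given answer. -/
def liftBr (hZ : ∀ x ∈ Z, k + 2 ≤ T.len x) (b : T.Br) (K : Set T.N) (μ : Option T.N)
    (h : ∀ n, k + 2 ≤ n → Valid Z k (b.1 n) K μ) : (unr hZ).Br :=
  ⟨fun n => ⟨b.1 n, if n ≤ k then ∅ else K, if n ≤ k + 1 then none else μ, by
      have := (h (n + k + 2) (by omega)).cut n
      rwa [b.cut (by omega)] at this⟩,
    fun n => ⟨b.len n, UN.ext (b.2 n).2
      (by simp only [unr]; split_ifs <;> first | rfl | omega)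
      (by simp only [unr]; split_ifs <;> first | rfl | omega)⟩⟩

theorem liftBr_cons {η : Bool} {σ : (unr hZ).Strat} {b : T.Br} {K : Set T.N} {μ : Option T.N}
    (h : ∀ n, k + 2 ≤ n → Valid Z k (b.1 n) K μ)
    (h0 : ∀ n, n ≤ k → n.bodd = η → b.1 (n + 1) = follow σ (b.1 n) ∅ none)
    (h1 : η = k.bodd → K = Kf η σ (b.1 (k + 1)))
    (h2 : η ≠ k.bodd → ∀ hv, UN.μ (σ.1 ⟨b.1 (k + 1), K, none, hv⟩) = μ)
    (h3 : ∀ n, k + 1 ≤ n → n.bodd = η → ∀ q : UN Z k, T.Child (b.1 n) q.x → q.K = K → q.μ = μ →
      q.x = follow σ (b.1 n) K (if n ≤ k + 1 then none else μ) → b.1 (n + 1) = q.x) :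
    Cons η σ (liftBr hZ b K μ h) := by
  intro n hn
  set p : UN Z k := (liftBr hZ b K μ h).1 n with hp
  obtain ⟨c1, c2, c3⟩ := unr_child (σ.2 p)
  have hf := follow_eq σ p
  have hl : T.len p.x = n := b.len n
  have hx : p.x = b.1 n := rfl
  have hK : p.K = if n ≤ k then ∅ else K := rfl
  have hμ : p.μ = if n ≤ k + 1 then none else μ := rfl
  have hv := UN.valid (σ.1 p)
  rcases le_or_gt n k with hk | hk
  · rw [hx, hK, hμ, if_pos hk, if_pos (by omega), ← h0 n hk hn] at hf
    refine UN.ext hf ?_ ?_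
    · change (if n + 1 ≤ k then ∅ else K) = _
      split_ifs with h'
      · exact (hv.h1 (by rw [c1.1]; omega)).symm
      · obtain rfl : n = k := by omega
        rw [h1 hn.symm, Kf, if_pos hn.symm]
        congr 2
        exact UN.ext (b.cut (Nat.le_succ n)) (by rw [hK, if_pos le_rfl])
          (by rw [hμ, if_pos (Nat.le_succ n)])
    · change (if n + 1 ≤ k + 1 then none else μ) = _
      rw [if_pos (by omega)]
      exact (hv.h2 (by rw [c1.1]; omega)).symm
  · have eK : UN.K (σ.1 p) = K := by rw [c2 (by omega), hK, if_neg (by omega)]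
    have eμ : UN.μ (σ.1 p) = μ := by
      rcases (Nat.succ_le_of_lt hk).eq_or_lt with hk' | hk'
      · obtain rfl : n = k + 1 := hk'.symm
        have hv' := p.valid
        rw [hx, hK, hμ, if_neg (by omega), if_pos le_rfl] at hv'
        rw [← h2 (by rw [← hn, Nat.bodd_succ]; simp) hv']
        congr 2
        exact UN.ext rfl (by rw [hK, if_neg (by omega)]) (by rw [hμ, if_pos le_rfl])
      · rw [c3 (by omega), hμ, if_neg (by omega)]
    rw [hx, hK, hμ, if_neg (by omega)] at hf
    refine UN.ext (h3 n hk hn _ c1 eK eμ hf.symm) ?_ ?_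
    · change (if n + 1 ≤ k then ∅ else K) = _
      rw [if_neg (by omega), eK]
    · change (if n + 1 ≤ k + 1 then none else μ) = _
      rw [if_neg (by omega), eμ]

theorem build_lift (η : Bool) (σ : (unr hZ).Strat) (b : T.Br) (hb : Cons η (build η σ) b) :
    ∃ b' : (unr hZ).Br, Cons η σ b' ∧ ∀ n, UN.x (b'.1 n) = b.1 n := by
  set q := b.1 (k + 1) with hq
  set K := Kf η σ q with hK
  have h0 : ∀ n, n ≤ k → n.bodd = η → b.1 (n + 1) = follow σ (b.1 n) ∅ none := fun n hn he => by
    rw [hb n he]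
    exact if_pos (by rwa [b.len])
  have hhigh : ∀ n, k + 1 ≤ n → n.bodd = η →
      b.1 (n + 1) = high Z k η (b.1 n) K (follow σ (b.1 n)) (chal η σ q) := fun n hn he => by
    rw [hb n he]
    simp only [build]
    rw [if_neg (by rw [b.len]; omega), b.cut hn]
  have hP1 : η = k.bodd → Valid Z k q K none := fun he => by
    set p : UN Z k := ⟨T.cut k q, ∅, none, valid_low (by rw [T.len_cut]; omega)⟩ with hp
    have hf := follow_eq σ p
    have hx : p.x = b.1 k := b.cut (Nat.le_succ k)
    rw [hx, show p.K = ∅ from rfl, show p.μ = none from rfl, ← h0 k le_rfl he.symm] at hf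
    have hv := UN.valid (σ.1 p)
    rw [hv.h2 (by rw [← hf, b.len]), ← hf] at hv
    rw [hK, Kf, if_pos he]
    exact hv
  have hnot : η ≠ k.bodd → η = !k.bodd := by cases η <;> cases k.bodd <;> simp
  have hKZ : K ⊆ Z := by
    by_cases he : η = k.bodd
    · exact ((hP1 he).h3 (by rw [b.len])).1
    · rw [hK, Kf, if_neg he]; exact Set.sdiff_subset
  have hAZ : tgt Z k η K ⊆ Z := by
    unfold tgt
    split_ifs
    · exact hKZ
    · exact Set.sdiff_subset
  by_cases hA : ∃ n, b.1 n ∈ tgt Z k η K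
  · set n0 := Nat.find hA with hn0
    set r := b.1 n0 with hr
    have hrA : r ∈ tgt Z k η K := Nat.find_spec hA
    have hlr : T.len r = n0 := b.len n0
    have hk0 : k + 2 ≤ n0 := hlr ▸ hZ r (hAZ hrA)
    set K' := chal η σ q r with hK'
    have hP2 : η ≠ k.bodd → ∃ h : Valid Z k q K' none, UN.μ (σ.1 ⟨q, K', none, h⟩) = some r := by
      intro he
      have h1 := hrA
      rw [tgt, if_neg he, hK, Kf, if_neg he] at h1
      have h2 : ∃ K', ∃ h : Valid Z k q K' none, UN.μ (σ.1 ⟨q, K', none, h⟩) = some r := by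
        by_contra hcon
        exact h1.2 ⟨h1.1, hcon⟩
      rw [hK', chal, if_neg he]
      exact epsilon_spec h2
    have hK'1 : η = k.bodd → K' = K := fun he => by rw [hK', chal, if_pos he]
    have hvq : Valid Z k q K' none ∧ r ∈ K' := by
      by_cases he : η = k.bodd
      · rw [hK'1 he]
        exact ⟨hP1 he, by rwa [tgt, if_pos he] at hrA⟩
      · obtain ⟨h1, h2⟩ := hP2 he
        refine ⟨h1, ?_⟩
        have := ((UN.valid (σ.1 ⟨q, K', none, h1⟩)).h5 r h2).1
        rwa [(unr_child (σ.2 ⟨q, K', none, h1⟩)).2.1 (by rw [b.len]; omega)] at this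
    have hv : ∀ n, k + 2 ≤ n → Valid Z k (b.1 n) K' (some r) := fun n hn => by
      refine ⟨fun h => by rw [b.len] at h; omega, fun h => by rw [b.len] at h; omega, fun _ => ?_,
        fun h => by simp at h, fun r' hr' => ?_⟩
      · have := hvq.1.h3 (by rw [b.len])
        rw [b.cut le_rfl] at this
        rwa [b.cut (by omega)]
      · obtain rfl : r = r' := by simpa using hr'
        exact ⟨hvq.2, by rw [hlr, b.len, b.cut', b.cut', min_comm]⟩
    refine ⟨liftBr hZ b K' (some r) hv, liftBr_cons hv h0 hK'1 (fun he _ => (hP2 he).2)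
      (fun n hn he p hc h1 h2 h3 => ?_), fun _ => rfl⟩
    rcases lt_or_ge n n0 with hn' | hn'
    · have h4 := (p.valid.h5 r h2).2
      have h5 : T.len p.x = n + 1 := by rw [hc.1, b.len]
      rw [T.cut_len _ _ (by omega), h5, b.cut hn'] at h4
      exact h4.symm
    · have hex : ∃ m, T.cut m (b.1 n) ∈ tgt Z k η K := ⟨n0, by rwa [b.cut hn']⟩
      rw [h3, if_neg (by omega), hhigh n hn he, high, dif_pos hex,
        find_cut b (P := fun x _ => x ∈ tgt Z k η K) hA hex hn']
  · have hnA : ∀ n, ¬ ∃ m, T.cut m (b.1 n) ∈ tgt Z k η K := fun n ⟨m, hm⟩ =>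
      hA ⟨_, by rwa [b.cut'] at hm⟩
    have hF : ¬ ∃ n, k + 1 ≤ n ∧ Fo Z k η K (b.1 n) := fun hF => by
      obtain ⟨h1, h2⟩ := Nat.find_spec hF
      refine hA (fs_reach h2 b (by rw [b.len]) fun n hn he => ?_)
      rw [b.len] at hn
      have hex : ∃ m, k + 1 ≤ m ∧ Fo Z k η K (T.cut m (b.1 n)) :=
        ⟨Nat.find hF, h1, by rwa [b.cut hn]⟩
      rw [hhigh n (by omega) he, high, dif_neg (hnA n), dif_pos hex,
        find_cut b (P := fun x m => k + 1 ≤ m ∧ Fo Z k η K x) hF hex hn]
    have hacc : ∀ n, k + 1 ≤ n → n.bodd = η → b.1 (n + 1) = follow σ (b.1 n) K none := by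
      intro n hn he
      rw [hhigh n hn he, high, dif_neg (hnA n), dif_neg]
      rintro ⟨m, h1, h2⟩
      rw [b.cut'] at h2
      exact hF ⟨_, by omega, h2⟩
    have hvq : Valid Z k q K none := by
      by_cases he : η = k.bodd
      · exact hP1 he
      · refine ⟨fun h => by rw [b.len] at h; omega, fun _ => rfl, fun _ => ⟨hKZ, ?_⟩,
          fun _ n h1 h2 => by rw [b.len] at h2; omega, fun _ h => by simp at h⟩
        rw [b.cut le_rfl, ← hnot he]
        exact fun h => hF ⟨_, le_rfl, h⟩
    have hP2 : η ≠ k.bodd → ∀ hv, UN.μ (σ.1 ⟨q, K, none, hv⟩) = none := by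
      intro he hv
      rw [Option.eq_none_iff_forall_ne_some]
      intro r hr
      have := ((UN.valid (σ.1 ⟨q, K, none, hv⟩)).h5 r hr).1
      rw [(unr_child (σ.2 ⟨q, K, none, hv⟩)).2.1 (by rw [b.len]; omega)] at this
      have h2 : r ∈ Kf η σ q := this
      rw [Kf, if_neg he] at h2
      exact h2.2 ⟨K, hv, hr⟩
    have hv : ∀ n, k + 1 ≤ n → Valid Z k (b.1 n) K none := by
      intro n hn
      induction hn with
      | refl => exact hvq
      | @step n hn ih =>
        have hn : k + 1 ≤ n := hn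
        by_cases he : n.bodd = η
        · have hf := follow_eq σ ⟨b.1 n, K, none, ih⟩
          rw [← hacc n hn he] at hf
          obtain ⟨-, c2, c3⟩ := unr_child (σ.2 ⟨b.1 n, K, none, ih⟩)
          have hv := UN.valid (σ.1 ⟨b.1 n, K, none, ih⟩)
          rw [← hf, c2 (by rw [b.len]; omega)] at hv
          rcases hn.eq_or_lt with rfl | hn'
          · rwa [hP2 (by rw [← he, Nat.bodd_succ]; simp)] at hv
          · rwa [c3 (by rw [b.len]; omega)] at hv
        · refine ⟨fun h => by rw [b.len] at h; omega, fun _ => rfl, fun _ => ?_,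
            fun _ m h1 h2 η' => ?_, fun _ h => by simp at h⟩
          · have := hvq.h3 (by rw [b.len])
            rw [b.cut le_rfl] at this
            rwa [b.cut (by omega)]
          · rw [b.len] at h2
            rw [b.cut h2]
            rcases h2.eq_or_lt with rfl | h2
            · by_cases hη : η' = η
              · exact fun h => hF ⟨_, by omega, hη ▸ h⟩
              · have he' : n.bodd = η' := by
                  revert he hη; cases n.bodd <;> cases η <;> cases η' <;> simp
                have key : b.1 n ∉ Z ∧ ¬ Fo Z k η' K (b.1 n) := by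
                  rcases hn.eq_or_lt with rfl | hn'
                  · refine ⟨fun h => by have := hZ _ h; rw [b.len] at this; omega, ?_⟩
                    have := (hvq.h3 (by rw [b.len])).2
                    rwa [b.cut le_rfl, ← Nat.bodd_succ, he'] at this
                  · have := ih.h4 rfl n hn' (by rw [b.len])
                    rw [b.cut le_rfl] at this
                    exact ⟨not_mem_of_not_fo this, this η'⟩
                exact fun h => key.2 (.mine _ _ key.1 (by rwa [b.len]) (b.child n) h)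
            · have := ih.h4 rfl m h1 (by rw [b.len]; omega) η'
              rwa [b.cut (by omega)] at this
    refine ⟨liftBr hZ b K none fun n hn => hv n (by omega),
      liftBr_cons _ h0 (fun _ => rfl) hP2 (fun n hn he p _ _ _ h3 => ?_), fun _ => rfl⟩
    rw [h3, ite_self, hacc n hn he]

/-- The auxiliary tree is a `k`-covering. -/
noncomputable def unrCov (hZ : ∀ x ∈ Z, k + 2 ≤ T.len x) : Cov k (unr hZ) T where
  π := UN.x
  len_π _ := rfl
  cut_π _ _ := rfl
  inj p q hp h := by
    have hp : T.len (UN.x p) ≤ k := hp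
    have hq : T.len (UN.x q) ≤ k := h ▸ hp
    exact UN.ext h (by rw [(UN.valid p).h1 hp, (UN.valid q).h1 hq])
      (by rw [(UN.valid p).h2 (by omega), (UN.valid q).h2 (by omega)])
  surj y hy := ⟨⟨y, ∅, none, valid_low hy⟩, rfl⟩
  φ := build
  loc := build_loc
  low ε σ p hp := by
    have hp : T.len (UN.x p) < k := hp
    rw [← follow_eq σ p, (UN.valid p).h1 hp.le, (UN.valid p).h2 (by omega)]
    exact if_pos hp.le
  lift := build_lift

/-- Every open set is unravelled by a `k`-covering. -/
theorem unravel_open {O : Set T.Br} (hO : Op O) (k : ℕ) :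
    ∃ (T' : GT) (C : Cov k T' T), Op (C.br ⁻¹' O) ∧ Op (C.br ⁻¹' O)ᶜ := by
  set Z : Set T.N := {x | k + 2 ≤ T.len x ∧ ∀ b : T.Br, b.1 (T.len x) = x → b ∈ O} with hZ'
  have hZ : ∀ x ∈ Z, k + 2 ≤ T.len x := fun x hx => hx.1
  refine ⟨unr hZ, unrCov hZ, (unrCov hZ).op hO, ?_⟩
  have hμ : ∀ (b : (unr hZ).Br) n, k + 2 ≤ n → UN.μ (b.1 n) = UN.μ (b.1 (k + 2)) := by
    intro b n hn
    have : (if k + 2 ≤ k + 1 then none else UN.μ (b.1 n)) = _ := congrArg UN.μ (b.cut hn)
    rwa [if_neg (by omega)] at this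
  have key : ∀ b : (unr hZ).Br, (unrCov hZ).br b ∉ O ↔ UN.μ (b.1 (k + 2)) = none := by
    intro b
    set c := (unrCov hZ).br b with hc
    have hcx : ∀ n, UN.x (b.1 n) = c.1 n := fun _ => rfl
    constructor
    · intro h
      rw [Option.eq_none_iff_forall_ne_some]
      intro r hr
      have hv := UN.valid (b.1 (T.len r + k + 2))
      rw [hμ b _ (by omega), hcx] at hv
      obtain ⟨h1, h2⟩ := hv.h5 r hr
      rw [c.cut (by omega), T.cut_len _ _ (by rw [c.len]; omega)] at h2
      exact h (((hv.h3 (by rw [c.len]; omega)).1 h1).2 c h2)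
    · intro h hO'
      obtain ⟨n, hn, hn'⟩ := hO.mono hO' (k + 2)
      have hv := UN.valid (b.1 n)
      rw [hμ b _ hn, hcx] at hv
      have := not_mem_of_not_fo (hv.h4 h n hn (by rw [c.len]))
      rw [c.cut le_rfl] at this
      exact this ⟨by rwa [c.len], fun b' hb' => hn' b' (by rwa [c.len] at hb')⟩
  intro b hb
  exact ⟨k + 2, fun b' h => (key b').mpr (by rw [h]; exact (key b).mp hb)⟩

end Pool.Agent.Shared.BorelDet.GT
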