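import Mathlib

/-!
Game trees, strategies and coverings (Martin's inductive proof of Borel determinacy).
-/

namespace Pool.Agent.Shared.BorelDet

/-- A pruned tree of height `ω`, given by its nodes, their levels and the truncation maps. -/
structure GT : Type 1 where
  N : Type
  len : N → ℕ
  cut : ℕ → N → N
  root : N
  len_root : len root = 0
  len_cut : ∀ m x, len (cut m x) = min m (len x)
  cut_cut : ∀ m n x, cut m (cut n x) = cut (min m n) x
  cut_len : ∀ m x, len x ≤ m → cut m x = x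
  cut_zero : ∀ x, cut 0 x = root
  pruned : ∀ x, ∃ y, len y = len x + 1 ∧ cut (len x) y = x

namespace GT

variable {T T' T'' : GT}

/-- `y` is an immediate successor of `x`. -/
def Child (T : GT) (x y : T.N) : Prop := T.len y = T.len x + 1 ∧ T.cut (T.len x) y = x

/-- A choice of a successor at every node. -/
@[ext] structure Strat (T : GT) : Type where
  f : T.N → T.N
  child : ∀ x, T.Child x (f x)

/-- An infinite branch. -/
@[ext] structure Br (T : GT) : Type where
  f : ℕ → T.N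
  prop : ∀ n, T.len (f n) = n ∧ T.cut n (f (n + 1)) = f n

/-- The branch follows `σ` at the levels of parity `ε`. -/
def Cons (ε : Bool) (σ : T.Strat) (b : T.Br) : Prop :=
  ∀ n, n.bodd = ε → b.1 (n + 1) = σ.1 (b.1 n)

/-- Open sets of branches. -/
def Op (O : Set T.Br) : Prop := ∀ b ∈ O, ∃ n, ∀ b' : T.Br, b'.1 n = b.1 n → b' ∈ O

/-- Some successor. -/
noncomputable def ch (T : GT) (x : T.N) : T.N := (T.pruned x).choose

theorem ch_child (x : T.N) : T.Child x (T.ch x) := (T.pruned x).choose_spec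

theorem Br.len (b : T.Br) (n : ℕ) : T.len (b.1 n) = n := (b.2 n).1

theorem Br.cut (b : T.Br) {m n : ℕ} (h : m ≤ n) : T.cut m (b.1 n) = b.1 m := by
  induction h with
  | refl => exact T.cut_len _ _ (b.len m).le
  | @step n h ih => rw [← ih, ← (b.2 n).2, T.cut_cut, min_eq_left h]

theorem Br.cut' (b : T.Br) (m n : ℕ) : T.cut m (b.1 n) = b.1 (min m n) := by
  rcases le_total m n with h | h
  · rw [b.cut h, min_eq_left h]
  · rw [min_eq_right h, T.cut_len _ _ ((b.len n).trans_le h)]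

theorem Br.child (b : T.Br) (n : ℕ) : T.Child (b.1 n) (b.1 (n + 1)) :=
  ⟨by rw [b.len, b.len], by rw [b.len, (b.2 n).2]⟩

theorem Child.cut {x y : T.N} (h : T.Child x y) {m : ℕ} (hm : m ≤ T.len x) :
    T.cut m y = T.cut m x := by
  conv_rhs => rw [← h.2, T.cut_cut, min_eq_left hm]

theorem Op.mono {O : Set T.Br} (hO : Op O) {b : T.Br} (hb : b ∈ O) (m : ℕ) :
    ∃ n, m ≤ n ∧ ∀ b' : T.Br, b'.1 n = b.1 n → b' ∈ O := by
  obtain ⟨n, hn⟩ := hO b hb
  refine ⟨max m n, le_max_left _ _, fun b' h => hn b' ?_⟩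
  rw [← b'.cut (le_max_right m n), h, b.cut (le_max_right m n)]

/-- A `k`-covering of `T` by `T'`. -/
structure Cov (k : ℕ) (T' T : GT) where
  π : T'.N → T.N
  len_π : ∀ x, T.len (π x) = T'.len x
  cut_π : ∀ m x, π (T'.cut m x) = T.cut m (π x)
  inj : ∀ x y, T'.len x ≤ k → π x = π y → x = y
  surj : ∀ y, T.len y ≤ k → ∃ x, π x = y
  φ : Bool → T'.Strat → T.Strat
  loc : ∀ ε (σ τ : T'.Strat) n, (∀ x, T'.len x ≤ n → σ.1 x = τ.1 x) →
    ∀ y, T.len y ≤ n → (φ ε σ).1 y = (φ ε τ).1 y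
  low : ∀ ε σ x, T'.len x < k → (φ ε σ).1 (π x) = π (σ.1 x)
  lift : ∀ ε σ (b : T.Br), Cons ε (φ ε σ) b → ∃ b' : T'.Br, Cons ε σ b' ∧ ∀ n, π (b'.1 n) = b.1 n

/-- The image of a branch. -/
def Cov.br {k : ℕ} (C : Cov k T' T) (b : T'.Br) : T.Br :=
  ⟨fun n => C.π (b.1 n), fun n => ⟨by rw [C.len_π, b.len], by rw [← C.cut_π, (b.2 n).2]⟩⟩

theorem Cov.op {k : ℕ} (C : Cov k T' T) {O : Set T.Br} (hO : Op O) : Op (C.br ⁻¹' O) := by
  intro b hb
  obtain ⟨n, hn⟩ := hO _ hb
  exact ⟨n, fun b' h => hn _ (congrArg C.π h)⟩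

/-- Composition of coverings. -/
def Cov.comp {k : ℕ} (C' : Cov k T'' T') (C : Cov k T' T) : Cov k T'' T where
  π := fun x => C.π (C'.π x)
  len_π x := by rw [C.len_π, C'.len_π]
  cut_π m x := by rw [C'.cut_π, C.cut_π]
  inj x y hx h := C'.inj x y hx (C.inj _ _ (by rwa [C'.len_π]) h)
  surj y hy := by
    obtain ⟨x, rfl⟩ := C.surj y hy
    obtain ⟨x', rfl⟩ := C'.surj x (by rwa [C.len_π] at hy)
    exact ⟨x', rfl⟩
  φ ε σ := C.φ ε (C'.φ ε σ)
  loc ε σ τ n h := C.loc ε _ _ n (C'.loc ε σ τ n h)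
  low ε σ x hx := by rw [C.low ε _ _ (by rwa [C'.len_π]), C'.low ε _ _ hx]
  lift ε σ b hb := by
    obtain ⟨b', h1, h2⟩ := C.lift ε _ b hb
    obtain ⟨b'', h3, h4⟩ := C'.lift ε _ b' h1
    exact ⟨b'', h3, fun n => by rw [h4, h2]⟩

/-- The player `ε` can force the play from `x` into `A`, the play being stopped on `Z`. -/
inductive Force (T : GT) (Z : Set T.N) (ε : Bool) (A : Set T.N) : T.N → Prop
  | hit (x : T.N) : x ∈ A → Force T Z ε A x
  | mine (x y : T.N) : x ∉ Z → (T.len x).bodd = ε → T.Child x y → Force T Z ε A y →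
      Force T Z ε A x
  | theirs (x : T.N) : x ∉ Z → (T.len x).bodd ≠ ε → (∀ y, T.Child x y → Force T Z ε A y) →
      Force T Z ε A x

theorem Force.mem {Z A : Set T.N} {ε : Bool} {x : T.N} (h : Force T Z ε A x) (hx : x ∈ Z) :
    x ∈ A := by
  cases h with
  | hit _ h => exact h
  | mine _ _ h => exact absurd hx h
  | theirs _ h => exact absurd hx h

theorem Force.exists {Z A : Set T.N} {ε : Bool} {x : T.N} (h : Force T Z ε A x) :
    ∃ r ∈ A, T.len x ≤ T.len r ∧ T.cut (T.len x) r = x := by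
  have key : ∀ x y r : T.N, T.Child x y → T.len y ≤ T.len r → T.cut (T.len y) r = y →
      T.len x ≤ T.len r ∧ T.cut (T.len x) r = x := fun x y r h h1 h2 => by
    refine ⟨by have := h.1; omega, ?_⟩
    have h3 : T.cut (T.len x) y = T.cut (T.len x) r := by
      conv_lhs => rw [← h2, T.cut_cut, min_eq_left (by have := h.1; omega)]
    rw [← h3, h.2]
  induction h with
  | hit x h => exact ⟨x, h, le_rfl, T.cut_len _ _ le_rfl⟩
  | mine x y _ _ hc _ ih =>
    obtain ⟨r, hr, h1, h2⟩ := ih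
    exact ⟨r, hr, key x y r hc h1 h2⟩
  | theirs x _ _ _ ih =>
    obtain ⟨r, hr, h1, h2⟩ := ih _ (ch_child x)
    exact ⟨r, hr, key x _ r (ch_child x) h1 h2⟩

/-- From `x` on, the strategy `σ` leads into `A`. -/
def Reach (ε : Bool) (A : Set T.N) (x : T.N) (σ : T.Strat) : Prop :=
  ∀ b : T.Br, b.1 (T.len x) = x →
    (∀ n, T.len x ≤ n → n.bodd = ε → b.1 (n + 1) = σ.1 (b.1 n)) → ∃ n, b.1 n ∈ A

theorem Force.reach {Z A : Set T.N} {ε : Bool} {x : T.N} (h : Force T Z ε A x) :
    ∃ σ, Reach ε A x σ := by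
  classical
  induction h with
  | hit x h => exact ⟨⟨T.ch, ch_child⟩, fun b hb _ => ⟨_, hb.symm ▸ h⟩⟩
  | mine x y _ he hc _ ih =>
    obtain ⟨σ, hσ⟩ := ih
    refine ⟨⟨fun z => if z = x then y else σ.1 z, fun z => ?_⟩, fun b hb hs => ?_⟩
    · by_cases hz : z = x
      · simp only [hz, if_true]; exact hc
      · simp only [hz, if_false]; exact σ.2 z
    · refine hσ b ?_ fun n hn hn' => ?_
      · rw [hc.1, hs _ le_rfl he, hb]; simp
      · have hne : b.1 n ≠ x := fun h => by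
          have := b.len n
          rw [h] at this
          have := hc.1
          omega
        rw [hs n (by have := hc.1; omega) hn']
        simp [hne]
  | theirs x _ _ _ ih =>
    have : ∀ y, ∃ σ, T.Child x y → Reach ε A y σ := fun y => by
      by_cases hy : T.Child x y
      · obtain ⟨σ, hσ⟩ := ih y hy
        exact ⟨σ, fun _ => hσ⟩
      · exact ⟨⟨T.ch, ch_child⟩, fun h => absurd h hy⟩
    choose s hs using this
    refine ⟨⟨fun z => (s (T.cut (T.len x + 1) z)).1 z, fun z => (s _).2 z⟩, fun b hb hb' => ?_⟩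
    have hc : T.Child x (b.1 (T.len x + 1)) := by
      have := b.child (T.len x)
      rwa [hb] at this
    refine hs _ hc b (by rw [b.len]) fun n hn hn' => ?_
    rw [b.len] at hn
    rw [hb' n (by omega) hn']
    simp only [b.cut hn]

/-- Gale and Stewart: open games are determined. -/
theorem open_determined {O : Set T.Br} (hO : Op O) (ε : Bool) :
    (∃ σ, ∀ b, Cons ε σ b → b ∈ O) ∨ ∃ τ, ∀ b, Cons (!ε) τ b → b ∉ O := by
  classical
  set Z : Set T.N := {x | ∀ b : T.Br, b.1 (T.len x) = x → b ∈ O} with hZ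
  have hroot : ∀ b : T.Br, b.1 0 = T.root := fun b => by
    rw [← b.cut (le_refl 0), T.cut_zero]
  by_cases h : Force T Z ε Z T.root
  · obtain ⟨σ, hσ⟩ := h.reach
    refine Or.inl ⟨σ, fun b hb => ?_⟩
    obtain ⟨n, hn⟩ := hσ b (by rw [T.len_root, hroot]) fun n _ hn => hb n hn
    exact hn b (by rw [b.len])
  · have : ∀ x, ∃ y, T.Child x y ∧
        (¬ Force T Z ε Z x → (T.len x).bodd ≠ ε → ¬ Force T Z ε Z y) := fun x => by
      by_contra hcon
      push Not at hcon
      obtain ⟨h1, h2, -⟩ := hcon _ (ch_child x)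
      exact h1 (.theirs x (fun hx => h1 (.hit x hx)) h2 fun y hy => (hcon y hy).2.2)
    choose τ hτ using this
    refine Or.inr ⟨⟨τ, fun x => (hτ x).1⟩, fun b hb hbO => ?_⟩
    have key : ∀ n, ¬ Force T Z ε Z (b.1 n) := by
      intro n
      induction n with
      | zero => rwa [hroot]
      | succ n ih =>
        by_cases hn : n.bodd = ε
        · exact fun hF => ih (.mine _ _ (fun hx => ih (.hit _ hx)) (by rwa [b.len]) (b.child n) hF)
        · rw [hb n (by revert hn; cases n.bodd <;> cases ε <;> simp)]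
          exact (hτ _).2 ih (by rwa [b.len])
    obtain ⟨n, hn⟩ := hO b hbO
    exact key n (.hit _ fun b' h => hn b' (by rwa [b.len] at h))

theorem Cov.wins {k : ℕ} (C : Cov k T' T) {S : Set T.Br} {ε : Bool} {σ : T'.Strat}
    (h : ∀ b, Cons ε σ b → C.br b ∈ S) : ∀ b, Cons ε (C.φ ε σ) b → b ∈ S := by
  intro b hb
  obtain ⟨b', h1, h2⟩ := C.lift ε σ b hb
  have : C.br b' = b := Br.ext (funext h2)
  exact this ▸ h b' h1

end GT

end Pool.Agent.Shared.BorelDet
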