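import Pool.Agent.Shared.BorelDet.Tree

/-!
Unravelling an open set: the auxiliary tree.
At level `k` the player to move announces a set `K ⊆ Z` of positions from which he is willing to go
on; the opponent either picks a member of `K`, or both players promise to avoid `Z`.
-/

namespace Pool.Agent.Shared.BorelDet.GT

variable {T : GT} {Z : Set T.N} {k : ℕ}

variable (Z k) in
/-- The positions that player `η` would like to reach. -/
def tgt (η : Bool) (K : Set T.N) : Set T.N := if η = k.bodd then K else Z \ K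

variable (Z k) in
/-- Player `η` can force a broken promise of the opponent. -/
def Fo (η : Bool) (K : Set T.N) (x : T.N) : Prop := Force T Z η (tgt Z k η K) x

theorem tgt_self (K : Set T.N) : tgt Z k k.bodd K = K := if_pos rfl

theorem tgt_not (K : Set T.N) : tgt Z k (!k.bodd) K = Z \ K := if_neg (by simp)

theorem not_mem_of_not_fo {K : Set T.N} {x : T.N} (h : ∀ η, ¬ Fo Z k η K x) : x ∉ Z := by
  intro hx
  by_cases hK : x ∈ K
  · exact h k.bodd (.hit _ (by rwa [tgt_self]))
  · exact h (!k.bodd) (.hit _ (by rw [tgt_not]; exact ⟨hx, hK⟩))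

theorem exists_child_not_fo {K : Set T.N} {x : T.N} (h : ∀ η, ¬ Fo Z k η K x) :
    ∃ y, T.Child x y ∧ ∀ η, ¬ Fo Z k η K y := by
  have hx := not_mem_of_not_fo h
  by_contra hcon
  push Not at hcon
  refine h (!(T.len x).bodd) (.theirs _ hx (by simp) fun y hy => ?_)
  obtain ⟨η, hη⟩ := hcon y hy
  by_cases he : (T.len x).bodd = η
  · exact absurd (.mine x y hx he hy hη) (h η)
  · have : η = !(T.len x).bodd := by revert he; cases η <;> cases (T.len x).bodd <;> simp
    exact this ▸ hη

variable (Z k) in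
/-- Positions of the auxiliary game. -/
structure Valid (x : T.N) (K : Set T.N) (μ : Option T.N) : Prop where
  h1 : T.len x ≤ k → K = ∅
  h2 : T.len x ≤ k + 1 → μ = none
  h3 : k + 1 ≤ T.len x → K ⊆ Z ∧ ¬ Fo Z k (!k.bodd) K (T.cut (k + 1) x)
  h4 : μ = none → ∀ n, k + 2 ≤ n → n ≤ T.len x → ∀ η, ¬ Fo Z k η K (T.cut n x)
  h5 : ∀ r, μ = some r → r ∈ K ∧ T.cut (T.len r) x = T.cut (T.len x) r

theorem valid_low {x : T.N} (h : T.len x ≤ k) : Valid Z k x ∅ none :=
  ⟨fun _ => rfl, fun _ => rfl, fun _ => by omega, fun _ _ _ _ => by omega, fun _ h => by simp at h⟩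

theorem Valid.cut {x : T.N} {K : Set T.N} {μ : Option T.N} (h : Valid Z k x K μ) (m : ℕ) :
    Valid Z k (T.cut m x) (if m ≤ k then ∅ else K) (if m ≤ k + 1 then none else μ) := by
  refine ⟨fun h' => ?_, fun h' => ?_, fun h' => ?_, fun h' n h1 h2 => ?_, fun r hr => ?_⟩
  · rw [T.len_cut] at h'
    split_ifs with hm
    · rfl
    · exact h.h1 (by omega)
  · rw [T.len_cut] at h'
    split_ifs with hm
    · rfl
    · exact h.h2 (by omega)
  · rw [T.len_cut] at h'
    rw [if_neg (by omega), T.cut_cut, min_eq_left (by omega)]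
    exact h.h3 (by omega)
  · rw [T.len_cut] at h2
    rw [if_neg (by omega)] at h'
    rw [if_neg (by omega), T.cut_cut, min_eq_left (by omega)]
    exact h.h4 h' n h1 (by omega)
  · split_ifs at hr with hm
    obtain ⟨h1, h2⟩ := h.h5 r hr
    refine ⟨by rwa [if_neg (by omega)], ?_⟩
    rw [T.len_cut, T.cut_cut, min_comm, ← T.cut_cut, h2, T.cut_cut]

variable (Z k) in
/-- Nodes of the auxiliary tree. -/
@[ext] structure UN where
  x : T.N
  K : Set T.N
  μ : Option T.N
  valid : Valid Z k x K μ

theorem un_pruned (hZ : ∀ x ∈ Z, k + 2 ≤ T.len x) (p : UN Z k) :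
    ∃ q : UN Z k, T.Child p.x q.x ∧ (k < T.len p.x → q.K = p.K) ∧
      (k + 1 < T.len p.x → q.μ = p.μ) := by
  obtain ⟨x, K, μ, h⟩ := p
  have hc := ch_child x
  rcases lt_trichotomy (T.len x) k with hx | hx | hx
  · exact ⟨⟨T.ch x, ∅, none, valid_low (by have := hc.1; omega)⟩, hc, fun h => by
      simp only at h; omega, fun h => by simp only at h; omega⟩
  · refine ⟨⟨T.ch x, Z, none, fun h => by have := hc.1; omega, fun _ => rfl,
      fun _ => ⟨le_rfl, fun hF => ?_⟩, fun _ _ _ _ => by have := hc.1; omega,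
      fun _ h => by simp at h⟩, hc, fun h => by simp only at h; omega,
      fun h => by simp only at h; omega⟩
    obtain ⟨r, hr, -⟩ := Force.exists hF
    rw [tgt_not] at hr
    simp at hr
  have h3 := h.h3 hx
  have chal : ∀ y r, T.Child x y → r ∈ K → T.cut (T.len r) y = T.cut (T.len y) r →
      Valid Z k y K (some r) := fun y r hy hr hc => by
    refine ⟨fun _ => by have := hy.1; omega, fun _ => by have := hy.1; omega,
      fun _ => by rwa [hy.cut hx], fun h => by simp at h, fun r' hr' => ?_⟩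
    obtain rfl : r = r' := by simpa using hr'
    exact ⟨hr, hc⟩
  rcases (Nat.succ_le_of_lt hx).eq_or_lt with hx' | hx'
  · have hx' : T.len x = k + 1 := hx'.symm
    have hxZ : x ∉ Z := fun h => by have := hZ x h; omega
    rw [T.cut_len _ _ hx'.le] at h3
    by_cases hF : Fo Z k k.bodd K (T.ch x)
    · obtain ⟨r, hr, h1, h2⟩ := Force.exists hF
      rw [tgt_self] at hr
      exact ⟨⟨T.ch x, K, some r, chal _ r hc hr (by rw [h2, T.cut_len _ _ h1])⟩, hc,
        fun _ => rfl, fun h => by simp only at h; omega⟩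
    · refine ⟨⟨T.ch x, K, none, fun _ => by have := hc.1; omega, fun _ => rfl,
        fun _ => by rwa [hc.cut hx, T.cut_len _ _ hx'.le], fun _ n h1 h2 η => ?_,
        fun _ h => by simp at h⟩, hc, fun _ => rfl, fun h => by simp only at h; omega⟩
      rw [T.cut_len _ _ (by have := hc.1; omega)]
      by_cases hη : η = k.bodd
      · rwa [hη]
      · have : η = !k.bodd := by revert hη; cases η <;> cases k.bodd <;> simp
        rw [this]
        exact fun hF' => h3.2 (.mine x _ hxZ (by rw [hx', Nat.bodd_succ]) hc hF')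
  · cases μ with
    | none =>
      obtain ⟨y, hy, hW⟩ := exists_child_not_fo (K := K) (x := x) (Z := Z) (k := k) (by
        have := h.h4 rfl _ hx' le_rfl
        rwa [T.cut_len _ _ le_rfl] at this)
      refine ⟨⟨y, K, none, fun _ => by have := hy.1; omega, fun _ => rfl,
        fun _ => by rwa [hy.cut hx], fun _ n h1 h2 => ?_, fun _ h => by simp at h⟩, hy,
        fun _ => rfl, fun _ => rfl⟩
      rcases h2.eq_or_lt with h2 | h2
      · rwa [T.cut_len _ _ h2.ge]
      · rw [hy.cut (by have := hy.1; omega)]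
        exact h.h4 rfl n h1 (by have := hy.1; omega)
    | some r =>
      obtain ⟨hr, hcr⟩ := h.h5 r rfl
      rcases lt_or_ge (T.len x) (T.len r) with hl | hl
      · have hy : T.Child x (T.cut (T.len x + 1) r) :=
          ⟨by rw [T.len_cut]; omega, by
            rw [T.cut_cut, min_eq_left (by omega), ← hcr, T.cut_len _ _ hl.le]⟩
        refine ⟨⟨_, K, some r, chal _ r hy hr ?_⟩, hy, fun _ => rfl, fun _ => rfl⟩
        rw [T.len_cut, T.cut_cut, min_comm]
      · refine ⟨⟨_, K, some r, chal _ r hc hr ?_⟩, hc, fun _ => rfl, fun _ => rfl⟩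
        rw [hc.cut hl, hcr, T.cut_len _ _ hl, T.cut_len _ _ (by have := hc.1; omega)]

/-- The auxiliary tree. -/
def unr (hZ : ∀ x ∈ Z, k + 2 ≤ T.len x) : GT where
  N := UN Z k
  len p := T.len p.x
  cut m p := ⟨T.cut m p.x, if m ≤ k then ∅ else p.K, if m ≤ k + 1 then none else p.μ,
    p.valid.cut m⟩
  root := ⟨T.root, ∅, none, valid_low (by rw [T.len_root]; omega)⟩
  len_root := T.len_root
  len_cut m p := T.len_cut m _
  cut_cut m n p := UN.ext (T.cut_cut m n _)
    (by simp only [min_le_iff]; split_ifs <;> first | rfl | omega)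
    (by simp only [min_le_iff]; split_ifs <;> first | rfl | omega)
  cut_len m p h := UN.ext (T.cut_len m _ h)
    (by dsimp only; split_ifs; exacts [(p.valid.h1 (by omega)).symm, rfl])
    (by dsimp only; split_ifs; exacts [(p.valid.h2 (by omega)).symm, rfl])
  cut_zero p := UN.ext (T.cut_zero _) (by simp) (by simp)
  pruned p := by
    obtain ⟨q, h1, h2, h3⟩ := un_pruned hZ p
    refine ⟨q, h1.1, UN.ext h1.2 ?_ ?_⟩
    · dsimp only; split_ifs; exacts [(p.valid.h1 (by omega)).symm, h2 (by omega)]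
    · dsimp only; split_ifs; exacts [(p.valid.h2 (by omega)).symm, h3 (by omega)]

variable {hZ : ∀ x ∈ Z, k + 2 ≤ T.len x}

theorem unr_child {p q : UN Z k} (h : (unr hZ).Child p q) :
    T.Child p.x q.x ∧ (k < T.len p.x → q.K = p.K) ∧ (k + 1 < T.len p.x → q.μ = p.μ) := by
  refine ⟨⟨h.1, congrArg UN.x h.2⟩, fun hk => ?_, fun hk => ?_⟩
  · have : (if T.len p.x ≤ k then ∅ else q.K) = p.K := congrArg UN.K h.2
    rwa [if_neg (by omega)] at this
  · have : (if T.len p.x ≤ k + 1 then none else q.μ) = p.μ := congrArg UN.μ h.2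
    rwa [if_neg (by omega)] at this

end Pool.Agent.Shared.BorelDet.GT
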